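import Pool.Agent.Lib.MP_aa7e4d_lc.Interfaces

/-!
# INCONS: no point is adjacent to two members of the sequence `b 1, h 1, h 2, …`
-/

open FirstOrder FirstOrder.Language

namespace Pool.Agent.SFC.H87

/-- if `y` has no parents, then a point adjacent to `y` determines `y` -/
theorem adj_eq {N : Type} (F : Frame N) {x y : N} (hy : ∀ i, F.f i y = y) (h : F.Adj x y) :
    F.f .r1 (F.f .p x) = y := by
  obtain ⟨_, hkB, _, h⟩ := h
  rcases h with ⟨hx, hne, hkl, h⟩ | ⟨h, _⟩
  · have hyl : y ≠ F.f .p x := by
      intro e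
      rw [e] at hkB
      rw [hkB] at hkl
      cases hkl
    rcases h with h | h | h
    · rw [hy] at h
      exact absurd h hyl
    · exfalso
      by_cases e : F.f .r0 (F.f .p x) = F.f .p x
      · exact hyl (h.symm.trans e)
      · have := F.f_ok .r0 (F.f .p x) e
        rw [h, hkB, hkl] at this
        exact this
    · exact h
  · exact absurd (hy .p) h

theorem incons : InconsStatement := by
  intro hR N _ F hgen hcom e c a b h hc x m n hmn hm hn
  obtain ⟨F', hgen', hcom', hkind, hRR, hb, hout⟩ :=
    hR N F hgen hcom (b 1) e (hc.kind_b 1) hc.kind_e hc.f_e (hc.p_b 1)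
  have hadj : ∀ x y, F.Adj x y → F'.Adj x y := by
    intro x y hxy
    have h1 := (hcom.2.2 ![x, y]).2 (by simpa using hxy)
    have h2 := (hcom'.2.2 ![x, y]).1 h1
    simpa using h2
  -- the `h n` have no parents in `F'`
  have hhb : ∀ n, h n ≠ b 1 := by
    intro n e1
    have := (hc.R_ab 0 1).2 (by norm_num)
    rw [← e1] at this
    exact hc.R_ah 0 n this
  have hhe : ∀ n, h n ≠ e := by
    intro n e1
    have h1 := hc.kind_h n
    rw [e1, hc.kind_e] at h1
    cases h1
  have hh : ∀ n i, F'.f i (h n) = h n := by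
    intro n i
    rw [hout (h n) (hhb n) (hhe n) i]
    exact hc.f_h n i
  have hpar : ∀ m i, F'.f i (if m = 0 then b 1 else h m) = (if m = 0 then b 1 else h m) := by
    intro m i
    split_ifs with h0
    · exact hb i
    · exact hh m i
  have e1 := adj_eq F' (hpar m) (hadj _ _ hm)
  have e2 := adj_eq F' (hpar n) (hadj _ _ hn)
  rw [e1] at e2
  by_cases h0 : m = 0
  · by_cases h1 : n = 0
    · exact hmn (h0.trans h1.symm)
    · rw [if_pos h0, if_neg h1] at e2
      exact hhb n e2.symm
  · by_cases h1 : n = 0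
    · rw [if_neg h0, if_pos h1] at e2
      exact hhb m e2
    · rw [if_neg h0, if_neg h1] at e2
      exact hmn (hc.inj_h e2)

end Pool.Agent.SFC.H87
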