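import Pool.Agent.Lib.MP_aa7e4d_lc.H87.ModelC
import Pool.Agent.Lib.MP_aa7e4d_lc.H87.Incons
import Pool.Agent.Lib.MP_aa7e4d_lc.H60.Ultra
import Pool.Agent.Lib.MP_aa7e4d_lc.H6.Main

/-!
# The version over models, part D: the dividing formula
-/

open FirstOrder FirstOrder.Language Filter

namespace Pool.Agent.SFC.H87

open Pool.Agent.SFC.H60 Pool.Agent.SFC.H6

section

variable {N I : Type} (u : Ultrafilter I)

/-- constant classes -/
def diag (x : N) : Pw N u := cl u (fun _ => x)

variable {u}

theorem ev_const {p : Prop} : (∀ᶠ _ in (u : Filter I), p) ↔ p := by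
  constructor
  · intro h
    exact h.exists.choose_spec
  · intro h
    exact Eventually.of_forall (fun _ => h)

theorem diag_inj {x y : N} : diag u x = diag u y ↔ x = y := by
  unfold diag
  rw [cl_eq]
  exact ev_const

variable (F : Frame N)

theorem kind_diag (x : N) : (pw F u).kind (diag u x) = F.kind x := by
  unfold diag
  rw [pw_kind, kind_cl_iff]
  exact ev_const.2 rfl

theorem f_diag (i : Fn) (x : N) : (pw F u).f i (diag u x) = diag u (F.f i x) := by
  unfold diag
  rw [pw_f, f_cl]

theorem R_diag (x y : N) : (pw F u).R (diag u x) (diag u y) ↔ F.R x y := by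
  unfold diag
  rw [pw_R, R_cl]
  exact ev_const

variable (u)

/-- the diagonal embedding is elementary -/
def diagEmb (N : Type) [Lang.Structure N] [Nonempty N] : N ↪ₑ[Lang] Pw N u :=
  ⟨diag u, by
    intro n φ x
    have h := Ultraproduct.realize_formula_cast (u := u) (M := fun _ : I => N) φ
      (fun i _ => x i)
    exact h.trans ev_const⟩

end

variable {N : Type} [Lang.Structure N] {F F' : Frame N} {e b a : N}

theorem exists_points (S : Setup F F' e b a) (T : Finset N) (S₀ : Set N) (hb : b ∉ S₀) :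
    ∃ h : ℕ → N, (∀ k, F.kind (h k) = .B ∧ (∀ i, F.f i (h k) = h k) ∧ h k ∉ T ∧ h k ≠ b ∧
      (∀ t ∈ T, t ∈ S₀ → (F.R (h k) t ↔ F.R b t)) ∧ ¬ F.R (h k) b) ∧
      ∀ k l, k < l → h k ≠ h l ∧ ¬ F.R (h k) (h l) := by
  classical
  refine exists_seq_of_forall_finset_exists (fun x => F.kind x = .B ∧ (∀ i, F.f i x = x) ∧
    x ∉ T ∧ x ≠ b ∧ (∀ t ∈ T, t ∈ S₀ → (F.R x t ↔ F.R b t)) ∧ ¬ F.R x b)
    (fun x y => x ≠ y ∧ ¬ F.R x y) ?_
  intro s hs
  obtain ⟨v, hv, hk, hn, -, hR⟩ := S.hG (s ∪ T ∪ {b}) .B (fun _ => none)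
    {t | t ∈ T ∧ t ∈ S₀ ∧ F.R b t} (by intro i y h; cases h)
  simp only [Finset.mem_union, Finset.mem_singleton, not_or] at hv
  refine ⟨v, ⟨hk, fun i => hn i rfl, hv.1.2, hv.2, ?_, ?_⟩, ?_⟩
  · intro t htT htS
    rw [hR t (by simp [htT])]
    exact ⟨fun h => h.2.2, fun h => ⟨htT, htS, h⟩⟩
  · intro h
    exact hb ((hR b (by simp)).1 h).2.1
  · intro x hx
    refine ⟨fun h => hv.1.1 (h ▸ hx), fun h => ?_⟩
    exact (hs x hx).2.2.1 ((hR x (by simp [hx])).1 (F.R_symm _ _ h)).1

theorem divides_adj [Nonempty N] (hDet : DetStatement) (hR1 : Reor1Statement) (S : Setup F F' e b a)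
    (S₀ : Set N) (hcl : Closed F' S₀) (hb : b ∉ S₀) (he : e ∉ S₀) :
    Divides S₀ adjF (fun _ : Fin 1 => b) := by
  classical
  let u : Ultrafilter (Finset N) := Ultrafilter.of atTop
  have hu : ∀ s : N, ∀ᶠ T in (u : Filter (Finset N)), s ∈ T := by
    intro s
    have h1 : ∀ᶠ T in (atTop : Filter (Finset N)), s ∈ T := by
      filter_upwards [eventually_ge_atTop {s}] with T hT
      exact hT (Finset.mem_singleton_self s)
    exact Ultrafilter.of_le _ h1
  let G : Frame (Pw N u) := pw F u
  have hG : G.Generic := pw_generic F S.hG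
  have hC : Compat G := pw_compat F S.hC
  have inj : ∀ x y : N, diag u x = diag u y ↔ x = y := fun x y => diag_inj
  obtain ⟨G', hG', hC', hk', hRR', hfb', hfo'⟩ := hR1 (Pw N u) G hG hC (diag u b) (diag u e)
    (by rw [kind_diag, S.kb]) (by rw [kind_diag, S.ke]) (fun i => by rw [f_diag, S.fe])
    (by rw [f_diag, S.pb])
  choose h hP hr using fun T => exists_points S T S₀ hb
  let D : ℕ → Pw N u := fun k => if k = 0 then diag u b else cl u (fun T => h T k)
  have D0 : D 0 = diag u b := by simp [D]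
  have Dk : ∀ k, k ≠ 0 → D k = cl u (fun T => h T k) := fun k hk => by simp [D, hk]
  have ne_of : ∀ (g g' : Finset N → N), (∀ᶠ T in (u : Filter (Finset N)), g T ≠ g' T) →
      cl u g ≠ cl u g' := by
    intro g g' hne heq
    rw [cl_eq] at heq
    obtain ⟨T, h1, h2⟩ := (hne.and heq).exists
    exact h1 h2
  have kD : ∀ k, G'.kind (D k) = .B := by
    intro k
    rw [hk']
    by_cases hk : k = 0
    · rw [hk, D0]
      show (pw F u).kind (diag u b) = .B
      rw [kind_diag, S.kb]
    · rw [Dk k hk]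
      show (pw F u).kind _ = .B
      rw [pw_kind, kind_cl_iff]
      exact Eventually.of_forall (fun T => (hP T k).1)
  have Dneb : ∀ k, k ≠ 0 → D k ≠ diag u b := by
    intro k hk
    rw [Dk k hk]
    exact ne_of _ _ (Eventually.of_forall (fun T => (hP T k).2.2.2.1))
  have Dnee : ∀ k, D k ≠ diag u e := by
    intro k heq
    have h1 := kD k
    rw [heq, hk'] at h1
    have h2 : (pw F u).kind (diag u e) = .B := h1
    rw [kind_diag, S.ke] at h2
    cases h2
  have fD : ∀ k i, G'.f i (D k) = D k := by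
    intro k i
    by_cases hk : k = 0
    · rw [hk, D0]
      exact hfb' i
    · rw [hfo' (D k) (Dneb k hk) (Dnee k) i, Dk k hk]
      show (pw F u).f i _ = _
      rw [pw_f, f_cl, cl_eq]
      exact Eventually.of_forall (fun T => (hP T k).2.1 i)
  have Dinj : ∀ k l, D k = D l ↔ k = l := by
    have hlt : ∀ k l, k < l → D k ≠ D l := by
      intro k l hkl
      have hl : l ≠ 0 := by omega
      by_cases hk : k = 0
      · rw [hk, D0]
        exact (Dneb l hl).symm
      · rw [Dk k hk, Dk l hl]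
        exact ne_of _ _ (Eventually.of_forall (fun T => (hr T k l hkl).1))
    intro k l
    constructor
    · intro heq
      rcases lt_trichotomy k l with h1 | h1 | h1
      · exact absurd heq (hlt k l h1)
      · exact h1
      · exact absurd heq.symm (hlt l k h1)
    · rintro rfl; rfl
  have Dne : ∀ k s, s ∈ S₀ → D k ≠ diag u s := by
    intro k s hs
    by_cases hk : k = 0
    · rw [hk, D0]
      intro heq
      exact hb ((inj _ _).1 heq ▸ hs)
    · rw [Dk k hk]
      apply ne_of
      filter_upwards [hu s] with T hT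
      intro heq
      exact (hP T k).2.2.1 (heq ▸ hT)
  have RDs : ∀ k s, s ∈ S₀ → (G'.R (D k) (diag u s) ↔ F.R b s) := by
    intro k s hs
    rw [hRR']
    by_cases hk : k = 0
    · rw [hk, D0]
      exact R_diag F b s
    · rw [Dk k hk]
      show (pw F u).R _ (diag u s) ↔ _
      unfold diag
      rw [pw_R, R_cl]
      have h1 : ∀ᶠ T in (u : Filter (Finset N)), (F.R (h T k) s ↔ F.R b s) := by
        filter_upwards [hu s] with T hT
        exact (hP T k).2.2.2.2.1 s hT hs
      exact (eventually_congr h1).trans ev_const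
  have RDD : ∀ k l, ¬ G'.R (D k) (D l) := by
    have hlt : ∀ k l, k < l → ¬ G'.R (D k) (D l) := by
      intro k l hkl hR
      have hl : l ≠ 0 := by omega
      rw [hRR'] at hR
      by_cases hk : k = 0
      · rw [hk, D0, Dk l hl] at hR
        have hR' : (pw F u).R (cl u fun _ => b) (cl u (fun T => h T l)) := hR
        rw [pw_R, R_cl] at hR'
        obtain ⟨T, hT⟩ := hR'.exists
        exact (hP T l).2.2.2.2.2 (F.R_symm _ _ hT)
      · rw [Dk k hk, Dk l hl] at hR
        have hR' : (pw F u).R (cl u (fun T => h T k)) (cl u (fun T => h T l)) := hR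
        rw [pw_R, R_cl] at hR'
        obtain ⟨T, hT⟩ := hR'.exists
        exact (hr T k l hkl).2 hT
    intro k l hR
    rcases lt_trichotomy k l with h1 | h1 | h1
    · exact hlt k l h1 hR
    · rw [h1] at hR
      exact G'.R_irrefl _ hR
    · exact hlt l k h1 (G'.R_symm _ _ hR)
  refine ⟨Pw N u, inferInstance, diagEmb u N, 2, fun k _ => D k, ?_, ?_, ?_⟩
  · funext s
    exact D0
  · intro n m ψ c hc f g hf hg
    have hc' : ∀ i, ∃ s, s ∈ S₀ ∧ diag u s = c i := hc
    choose s hs hsc using hc'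
    obtain ⟨d, hd⟩ := hDet _ ψ
    refine hd (Pw N u) (Pw N u) G' G' hG' hG' hC' hC' _ _ ?_
    have fs : ∀ (i : Fn) (x : N), x ∈ S₀ → G'.f i (diag u x) = diag u (F'.f i x) := by
      intro i x hx
      have h1 : x ≠ b := fun h => hb (h ▸ hx)
      have h2 : x ≠ e := fun h => he (h ▸ hx)
      rw [hfo' (diag u x) (fun h => h1 ((inj _ _).1 h)) (fun h => h2 ((inj _ _).1 h)) i,
        S.fo x h1 h2 i]
      exact f_diag F i x
    refine approx_fam (Y := Fin n ⊕ {x // x ∈ S₀})
      (fun i y => match y with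
        | Sum.inl p => Sum.inl p
        | Sum.inr x => Sum.inr ⟨F'.f i x, hcl x x.2 i⟩)
      (Sum.elim (fun p => D (f p)) (fun x => diag u (x : N)))
      (Sum.elim (fun p => D (g p)) (fun x => diag u (x : N))) ?_ ?_ ?_ ?_ ?_
      (Sum.elim (fun p => Sum.inl p.1) (fun i => Sum.inr ⟨s i, hs i⟩)) ?_ ?_ d
    · rintro i (p | x)
      · exact fD _ i
      · exact fs i x x.2
    · rintro i (p | x)
      · exact fD _ i
      · exact fs i x x.2
    · rintro (p | x) (q | y)
      · show D (f p) = D (f q) ↔ D (g p) = D (g q)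
        rw [Dinj, Dinj, hf.injective.eq_iff, hg.injective.eq_iff]
      · show D (f p) = diag u (y : N) ↔ D (g p) = diag u (y : N)
        exact ⟨fun h => absurd h (Dne _ _ y.2), fun h => absurd h (Dne _ _ y.2)⟩
      · show diag u (x : N) = D (f q) ↔ diag u (x : N) = D (g q)
        exact ⟨fun h => absurd h.symm (Dne _ _ x.2), fun h => absurd h.symm (Dne _ _ x.2)⟩
      · exact Iff.rfl
    · rintro (p | x)
      · exact (kD _).trans (kD _).symm
      · rfl
    · rintro (p | x) (q | y)
      · exact ⟨fun h => absurd h (RDD _ _), fun h => absurd h (RDD _ _)⟩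
      · show G'.R (D (f p)) (diag u (y : N)) ↔ G'.R (D (g p)) (diag u (y : N))
        rw [RDs _ _ y.2, RDs _ _ y.2]
      · show G'.R (diag u (x : N)) (D (f q)) ↔ G'.R (diag u (x : N)) (D (g q))
        have h1 : ∀ z w, G'.R z w ↔ G'.R w z := fun z w => ⟨G'.R_symm z w, G'.R_symm w z⟩
        rw [h1, h1 (diag u (x : N)), RDs _ _ x.2, RDs _ _ x.2]
      · exact Iff.rfl
    · rintro (p | i)
      · rfl
      · exact (hsc i).symm
    · rintro (p | i)
      · rfl
      · exact (hsc i).symm
  · intro s hs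
    obtain ⟨m, n, hmn, rfl⟩ := Finset.card_eq_two.1 hs
    rintro ⟨x, hx⟩
    have h1 := hx m (by simp)
    have h2 := hx n (by simp)
    rw [realize_adjF hC'] at h1 h2
    simp only [Sum.elim_inl, Sum.elim_inr] at h1 h2
    have h3 := adj_eq G' (fD m) h1
    have h4 := adj_eq G' (fD n) h2
    exact hmn ((Dinj _ _).1 (h3.symm.trans h4))

end Pool.Agent.SFC.H87
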