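import Pool.Agent.Lib.MP_aa7e4d_lc.Interfaces

/-!
# NAT: there is a generic frame on the natural numbers
-/

open FirstOrder FirstOrder.Language

namespace Pool.Agent.SFC.H87

/-- the codes: kind, parents, neighbours, and a multiplicity -/
abbrev Code : Type := Kind × (Fn → Option ℕ) × Finset ℕ × ℕ

instance : Infinite Code :=
  Infinite.of_injective (fun n : ℕ => ((Kind.A, (fun _ => none), (∅ : Finset ℕ), n) : Code))
    (fun a b h => by simpa using h)

instance : Countable Fn := Finite.to_countable

instance : Countable Kind := Finite.to_countable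

theorem exists_code : Nonempty (ℕ ≃ Code) := nonempty_equiv_of_countable

noncomputable def code : ℕ ≃ Code := exists_code.some

noncomputable def kd (n : ℕ) : Kind := (code n).1

open Classical in
noncomputable def par (i : Fn) (n : ℕ) : ℕ :=
  if h : ∃ y, (code n).2.1 i = some y ∧ y < n ∧ ok (kd n) i (kd y) then h.choose else n

def rel (n m : ℕ) : Prop := (m < n ∧ m ∈ (code n).2.2.1) ∨ (n < m ∧ n ∈ (code m).2.2.1)

theorem par_spec (i : Fn) (n : ℕ) (h : par i n ≠ n) :
    (code n).2.1 i = some (par i n) ∧ par i n < n ∧ ok (kd n) i (kd (par i n)) := by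
  classical
  unfold par at h ⊢
  split_ifs at h ⊢ with hh
  · exact hh.choose_spec
  · exact absurd rfl h

theorem par_none (i : Fn) (n : ℕ) (h : (code n).2.1 i = none) : par i n = n := by
  classical
  unfold par
  rw [dif_neg]
  rintro ⟨y, hy, _⟩
  rw [h] at hy
  cases hy

theorem par_some (i : Fn) (n y : ℕ) (h : (code n).2.1 i = some y) (hy : y < n)
    (hok : ok (kd n) i (kd y)) : par i n = y := by
  classical
  unfold par
  have hh : ∃ y, (code n).2.1 i = some y ∧ y < n ∧ ok (kd n) i (kd y) := ⟨y, h, hy, hok⟩
  rw [dif_pos hh]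
  exact (Option.some.inj (h.symm.trans hh.choose_spec.1)).symm

noncomputable def frame : Frame ℕ where
  kind := kd
  f := par
  R := rel
  lt := fun a b => a < b
  lt_irrefl := fun x => lt_irrefl x
  lt_trans := fun x y z h1 h2 => lt_trans h1 h2
  f_lt := fun i x h => (par_spec i x h).2.1
  f_ok := fun i x h => (par_spec i x h).2.2
  R_symm := by
    rintro x y (h | h)
    · exact Or.inr h
    · exact Or.inl h
  R_irrefl := by
    rintro x (h | h)
    · exact lt_irrefl _ h.1
    · exact lt_irrefl _ h.1

theorem frame_gen : frame.Generic := by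
  classical
  intro S κ g U hg
  have hinj : Function.Injective
      (fun t : ℕ => code.symm ((κ, g, S.filter (· ∈ U), t) : Code)) := by
    intro a b h
    have := code.symm.injective h
    simpa using this
  obtain ⟨v, ⟨t, ht⟩, hv⟩ := (Set.infinite_range_of_injective hinj).exists_gt (S.sup id)
  have hc : code v = (κ, g, S.filter (· ∈ U), t) := by
    rw [← ht]; simp
  have hlt : ∀ u ∈ S, u < v := fun u hu => lt_of_le_of_lt (Finset.le_sup (f := id) hu) hv
  have hkd : kd v = κ := by unfold kd; rw [hc]
  refine ⟨v, fun h => lt_irrefl _ (hlt v h), hkd, ?_, ?_, ?_⟩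
  · intro i hi
    exact par_none i v (by rw [hc]; exact hi)
  · intro i y hi
    obtain ⟨hyS, hok⟩ := hg i y hi
    exact par_some i v y (by rw [hc]; exact hi) (hlt y hyS) (by rw [hkd]; exact hok)
  · intro u hu
    show rel v u ↔ u ∈ U
    have hlu := hlt u hu
    unfold rel
    rw [hc]
    constructor
    · rintro (⟨_, h⟩ | ⟨h, _⟩)
      · exact (Finset.mem_filter.1 h).2
      · exact absurd (lt_trans h hlu) (lt_irrefl _)
    · intro h
      exact Or.inl ⟨hlu, Finset.mem_filter.2 ⟨hu, h⟩⟩

theorem nat : NatStatement := ⟨frame, frame_gen⟩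

end Pool.Agent.SFC.H87
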