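import Pool.Agent.Lib.MP_aa7e4d_lc.Interfaces

/-!
# NOFORK: a formula which forks over `C` has no solution in `C`
-/

open FirstOrder FirstOrder.Language

namespace Pool.Agent.SFC.H87

theorem nofork : NoForkStatement := by
  intro L M _ C r φ d hF c hc hφ
  obtain ⟨N, instN, j, rr, n, ψ, dd, hdiv, himp⟩ := hF
  have h1 : φ.Realize (Sum.elim (fun _ => j c) (j ∘ d)) := by
    have h := (j.map_formula φ (Sum.elim (fun _ => c) d)).2 hφ
    have e : (j ∘ Sum.elim (fun _ : Fin 1 => c) d) = Sum.elim (fun _ => j c) (j ∘ d) := by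
      funext x; rcases x with x | x <;> rfl
    rw [e] at h
    exact h
  obtain ⟨i, hi⟩ := himp _ h1
  obtain ⟨N', inst', j', k, D, hD0, hind, hinc⟩ := hdiv i
  have h2 : (ψ i).Realize (Sum.elim (fun _ => j' (j c)) (D 0)) := by
    have h := (j'.map_formula (ψ i) (Sum.elim (fun _ => j c) (dd i))).2 hi
    have e : (j' ∘ Sum.elim (fun _ : Fin 1 => j c) (dd i))
        = Sum.elim (fun _ => j' (j c)) (D 0) := by
      funext x; rcases x with x | x
      · rfl
      · simp [hD0]
    rw [e] at h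
    exact h
  have h3 : ∀ l : ℕ, (ψ i).Realize (Sum.elim (fun _ => j' (j c)) (D l)) := by
    intro l
    let g : Fin 1 ⊕ Fin (n i) → (Fin 1 × Fin (n i)) ⊕ Fin 1 :=
      Sum.elim (fun _ => Sum.inr 0) (fun y => Sum.inl (0, y))
    have key : ∀ l : ℕ, ((ψ i).relabel g).Realize
        (Sum.elim (fun p : Fin 1 × Fin (n i) => D ((fun _ : Fin 1 => l) p.1) p.2)
          (fun _ : Fin 1 => j' (j c))) ↔
          (ψ i).Realize (Sum.elim (fun _ => j' (j c)) (D l)) := by
      intro l
      rw [Formula.realize_relabel]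
      have e : (Sum.elim (fun p : Fin 1 × Fin (n i) => D ((fun _ : Fin 1 => l) p.1) p.2)
          (fun _ : Fin 1 => j' (j c))) ∘ g = Sum.elim (fun _ => j' (j c)) (D l) := by
        funext x; rcases x with x | x <;> rfl
      rw [e]
    have hmono : ∀ l : ℕ, StrictMono (fun _ : Fin 1 => l) := by
      intro l a b hab
      exact absurd hab (by simp [Subsingleton.elim a b])
    have := hind 1 1 ((ψ i).relabel g) (fun _ => j' (j c))
      (fun _ => ⟨j c, ⟨c, hc, rfl⟩, rfl⟩) (fun _ => 0) (fun _ => l) (hmono 0) (hmono l)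
    exact (key l).1 (this.1 ((key 0).2 h2))
  exact hinc (Finset.range k) (Finset.card_range k) ⟨_, fun i _ => h3 i⟩

end Pool.Agent.SFC.H87
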