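import Pool.Agent.Lib.MP_aa7e4d_lc.Interfaces

/-!
# The version over models, part A: closed sets, restricted frames, elementary substructures
-/

open FirstOrder FirstOrder.Language

namespace Pool.Agent.SFC.H87

/-- Two tuples inside closed families which are isomorphic. -/
theorem approx_fam {N₁ N₂ α Y : Type} {F₁ : Frame N₁} {F₂ : Frame N₂} (φ : Fn → Y → Y)
    (v : Y → N₁) (v' : Y → N₂) (h1 : ∀ i y, F₁.f i (v y) = v (φ i y))
    (h2 : ∀ i y, F₂.f i (v' y) = v' (φ i y)) (he : ∀ y z, v y = v z ↔ v' y = v' z)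
    (hk : ∀ y, F₁.kind (v y) = F₂.kind (v' y)) (hR : ∀ y z, F₁.R (v y) (v z) ↔ F₂.R (v' y) (v' z))
    (t : α → Y) {u : α → N₁} {u' : α → N₂} (hu : ∀ s, u s = v (t s)) (hu' : ∀ s, u' s = v' (t s))
    (d : ℕ) : Approx F₁ F₂ d u u' := by
  have e1 : ∀ (w : List Fn) (y : Y), F₁.ev w (v y) = v (w.foldr φ y) := by
    intro w y
    induction w with
    | nil => rfl
    | cons i w ih => rw [Frame.ev_cons, ih, h1]; rfl
  have e2 : ∀ (w : List Fn) (y : Y), F₂.ev w (v' y) = v' (w.foldr φ y) := by
    intro w y
    induction w with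
    | nil => rfl
    | cons i w ih => rw [Frame.ev_cons, ih, h2]; rfl
  refine ⟨?_, ?_, ?_⟩
  · intro a b w w' _ _
    rw [hu, hu, hu', hu', e1, e1, e2, e2]
    exact he _ _
  · intro a w _
    rw [hu, hu', e1, e2]
    exact hk _
  · intro a b w w' _ _
    rw [hu, hu, hu', hu', e1, e1, e2, e2]
    exact hR _ _

section

variable {N : Type} (G : Frame N)

/-- a set closed under parents -/
def Closed (S : Set N) : Prop := ∀ x ∈ S, ∀ i, G.f i x ∈ S

theorem Closed.ev {G : Frame N} {S : Set N} (h : Closed G S) {x : N} (hx : x ∈ S) (w : List Fn) :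
    G.ev w x ∈ S := by
  induction w with
  | nil => exact hx
  | cons i w ih => exact h _ ih i

/-- the restriction of a frame to a closed set -/
def restr (S : Set N) (hS : Closed G S) : Frame S where
  kind := fun x => G.kind x
  f := fun i x => ⟨G.f i x, hS x x.2 i⟩
  R := fun x y => G.R x y
  lt := fun x y => G.lt x y
  lt_irrefl := fun x => G.lt_irrefl x
  lt_trans := fun x y z => G.lt_trans x y z
  f_lt := fun i x h => G.f_lt i x (fun e => h (Subtype.ext e))
  f_ok := fun i x h => G.f_ok i x (fun e => h (Subtype.ext e))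
  R_symm := fun x y => G.R_symm x y
  R_irrefl := fun x => G.R_irrefl x

/-- a set in which one can find generic elements -/
def GenSet (S : Set N) : Prop :=
  ∀ (T : Finset N) (κ : Kind) (g : Fn → Option N) (U : Set N), (∀ x ∈ T, x ∈ S) →
    (∀ i y, g i = some y → y ∈ T ∧ ok κ i (G.kind y)) →
    ∃ v, v ∈ S ∧ v ∉ T ∧ G.kind v = κ ∧ (∀ i, g i = none → G.f i v = v) ∧
      (∀ i y, g i = some y → G.f i v = y) ∧ ∀ u ∈ T, (G.R v u ↔ u ∈ U)

theorem restr_generic {G : Frame N} {S : Set N} (hS : Closed G S) (h : GenSet G S) :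
    (restr G S hS).Generic := by
  classical
  intro T κ g U hg
  obtain ⟨v, hvS, hvT, hk, hn, hs, hR⟩ := h (T.image Subtype.val) κ
    (fun i => (g i).map Subtype.val) (Subtype.val '' U) (by
      intro x hx
      obtain ⟨y, _, rfl⟩ := Finset.mem_image.1 hx
      exact y.2) (by
      intro i y hy
      rw [Option.map_eq_some_iff] at hy
      obtain ⟨z, hz, rfl⟩ := hy
      obtain ⟨h1, h2⟩ := hg i z hz
      exact ⟨Finset.mem_image_of_mem _ h1, h2⟩)
  refine ⟨⟨v, hvS⟩, ?_, hk, ?_, ?_, ?_⟩
  · intro hv
    exact hvT (Finset.mem_image.2 ⟨⟨v, hvS⟩, hv, rfl⟩)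
  · intro i hi
    exact Subtype.ext (hn i (by simp [hi]))
  · intro i y hi
    exact Subtype.ext (hs i y (by simp [hi]))
  · intro u hu
    have := hR u (Finset.mem_image_of_mem _ hu)
    refine Iff.trans this ?_
    constructor
    · rintro ⟨y, hy, hyu⟩
      rw [← Subtype.ext hyu]
      exact hy
    · intro h
      exact ⟨u, h, rfl⟩

/-- the elements none of whose iterated parents is in `X` -/
def avoid (X : Finset N) : Set N := {x | ∀ w : List Fn, G.ev w x ∉ X}

variable {G}

theorem ev_append (w w' : List Fn) (x : N) : G.ev (w ++ w') x = G.ev w (G.ev w' x) := by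
  unfold Frame.ev
  rw [List.foldr_append]

theorem avoid_closed (X : Finset N) : Closed G (avoid G X) := by
  intro x hx i w
  have : G.ev w (G.f i x) = G.ev (w ++ [i]) x := by rw [ev_append]; rfl
  rw [this]
  exact hx _

theorem not_mem_of_avoid {X : Finset N} {x : N} (hx : x ∈ avoid G X) : x ∉ X := hx []

theorem avoid_of_closed {X : Finset N} {S : Set N} (hS : Closed G S) (hX : ∀ x ∈ S, x ∉ X)
    {x : N} (hx : x ∈ S) : x ∈ avoid G X :=
  fun w => hX _ (hS.ev hx w)

theorem avoid_anti {X Y : Finset N} (h : X ⊆ Y) : avoid G Y ⊆ avoid G X :=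
  fun _ hx w hw => hx w (h hw)

theorem avoid_genSet (hG : G.Generic) (X : Finset N) : GenSet G (avoid G X) := by
  classical
  intro T κ g U hT hg
  obtain ⟨v, hvT, hk, hn, hs, hR⟩ := hG (T ∪ X) κ g U (by
    intro i y hy
    exact ⟨Finset.mem_union_left _ (hg i y hy).1, (hg i y hy).2⟩)
  rw [Finset.mem_union, not_or] at hvT
  refine ⟨v, ?_, hvT.1, hk, hn, hs, fun u hu => hR u (Finset.mem_union_left _ hu)⟩
  refine avoid_of_closed (S := insert v (avoid G X)) ?_ ?_ (Set.mem_insert _ _)
  · rintro x (rfl | hx) i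
    · rcases hgi : g i with _ | y
      · rw [hn i hgi]
        exact Set.mem_insert _ _
      · rw [hs i y hgi]
        exact Or.inr (hT y (hg i y hgi).1)
    · exact Or.inr (avoid_closed X x hx i)
  · rintro x (rfl | hx)
    · exact hvT.2
    · exact not_mem_of_avoid hx

end

/-- every set is a substructure: the language is relational -/
def subOf {N : Type} [Lang.Structure N] (S : Set N) : Lang.Substructure N where
  carrier := S
  fun_mem := fun {_} f => Empty.elim f

theorem restr_compat {N : Type} [Lang.Structure N] {G : Frame N} (hC : Compat G) {S : Set N}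
    (hS : Closed G S) : @Compat S (Substructure.inducedStructure (S := subOf S)) (restr G S hS) := by
  let _ : Lang.Structure S := Substructure.inducedStructure (S := subOf S)
  refine ⟨?_, ?_, ?_⟩
  · intro κ v
    exact hC.1 κ (fun i => (v i : N))
  · intro v
    refine (hC.2.1 (fun i => (v i : N))).trans ?_
    unfold Frame.Inc
    simp only [restr, ne_eq, Subtype.ext_iff]
  · intro v
    refine (hC.2.2 (fun i => (v i : N))).trans ?_
    unfold Frame.Adj Frame.Inc
    simp only [restr, ne_eq, Subtype.ext_iff]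

theorem subOf_isElementary (hDet : DetStatement) {N : Type} [Lang.Structure N] {G : Frame N}
    (hG : G.Generic) (hC : Compat G) {S : Set N} (hS : Closed G S) (hgen : GenSet G S) :
    (subOf S).IsElementary := by
  intro n φ x
  obtain ⟨d, hd⟩ := hDet (Fin n) φ
  let _ : Lang.Structure S := Substructure.inducedStructure (S := subOf S)
  have h := hd S N (restr G S hS) G (restr_generic hS hgen) hG (restr_compat hC hS) hC x
    (fun i => (x i : N)) (approx_fam (Y := S) (fun i y => ⟨G.f i y, hS y y.2 i⟩) id Subtype.val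
      (fun _ _ => rfl) (fun _ _ => rfl) (fun _ _ => Subtype.ext_iff) (fun _ => rfl)
      (fun _ _ => Iff.rfl) x (fun _ => rfl) (fun _ => rfl) d)
  exact h.symm

/-- the elementary substructure on a closed generic set -/
def elOf (hDet : DetStatement) {N : Type} [Lang.Structure N] {G : Frame N}
    (hG : G.Generic) (hC : Compat G) {S : Set N} (hS : Closed G S) (hgen : GenSet G S) :
    Lang.ElementarySubstructure N :=
  ⟨subOf S, subOf_isElementary hDet hG hC hS hgen⟩

theorem coe_elOf (hDet : DetStatement) {N : Type} [Lang.Structure N] {G : Frame N}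
    (hG : G.Generic) (hC : Compat G) {S : Set N} (hS : Closed G S) (hgen : GenSet G S) :
    ((elOf hDet hG hC hS hgen : Lang.ElementarySubstructure N) : Set N) = S := rfl

end Pool.Agent.SFC.H87
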