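import Pool.Agent.Lib.MP_aa7e4d_lc.H87.ModelA

/-!
# The version over models, part B: finite configurations
-/

open FirstOrder FirstOrder.Language

namespace Pool.Agent.SFC.H87

/-- `e` is a line without parents in `F`, the points `a`, `b` are children of `e` with `R a b`, and
`F'` is `F` with `b` made a parent of `e`. -/
structure Setup {N : Type} [Lang.Structure N] (F F' : Frame N) (e b a : N) : Prop where
  hG : F.Generic
  hC : Compat F
  hG' : F'.Generic
  hC' : Compat F'
  kd' : F'.kind = F.kind
  R' : F'.R = F.R
  fb : ∀ i, F'.f i b = b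
  fo : ∀ x, x ≠ b → x ≠ e → ∀ i, F'.f i x = F.f i x
  ke : F.kind e = .L
  fe : ∀ i, F.f i e = e
  kb : F.kind b = .B
  pb : F.f .p b = e
  ka : F.kind a = .A
  pa : F.f .p a = e
  Rab : F.R a b

theorem f_point {N : Type} {F : Frame N} {x : N} (h : F.kind x ≠ .L) {i : Fn} (hi : i ≠ .p) :
    F.f i x = x := by
  by_contra hne
  have h1 := F.f_ok i x hne
  cases i with
  | p => exact hi rfl
  | r0 => cases hk : F.kind x <;> rw [hk] at h1 h <;> first | exact h1 | exact h rfl
  | r1 => cases hk : F.kind x <;> rw [hk] at h1 h <;> first | exact h1 | exact h rfl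

variable {N : Type}

/-- the finite set `Z` of `F'`-closed data with a closed part `Z₀` (to be kept fixed), and a point
`c` which is like `a`, but free over `b` -/
structure Fin1 (F F' : Frame N) (e b a : N) (Z Z₀ : Finset N) (c : N) : Prop where
  hb : b ∈ Z
  he : e ∉ Z
  ha : a ∉ Z
  cl : ∀ z ∈ Z, ∀ i, F'.f i z ∈ Z
  sub : Z₀ ⊆ Z
  hb₀ : b ∉ Z₀
  cl₀ : ∀ z ∈ Z₀, ∀ i, F'.f i z ∈ Z₀
  kc : F.kind c = .A
  fc : ∀ i, F'.f i c = c
  hc : c ∉ Z
  Rc : ∀ z ∈ Z, (F.R c z ↔ F.R a z ∧ z ≠ b)

variable [Lang.Structure N] {F F' : Frame N} {e b a : N}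

theorem blocks (hExt : ExtStatement) (hR2 : Reor2Statement) (S : Setup F F' e b a)
    {Z Z₀ : Finset N} {c : N} (D : Fin1 F F' e b a Z Z₀ c) (n : ℕ) :
    ∃ (x : Fin n → N) (g : Fin n → N → N), (∀ j, ∀ z ∈ Z₀, g j z = z) ∧ ∀ i j : Fin n,
      (i < j → ∀ (d r : ℕ) (m : Fin r → N), (∀ s, m s ∈ Z) →
        Approx F F d (Sum.elim (fun _ : Fin 1 => x i) (g j ∘ m))
          (Sum.elim (fun _ : Fin 1 => a) m)) ∧
      (j ≤ i → ∃ F'' : Frame N, F''.Generic ∧ Compat F'' ∧
        ∀ (d r : ℕ) (m : Fin r → N), (∀ s, m s ∈ Z) →
        Approx F'' F' d (Sum.elim (fun _ : Fin 1 => x i) (g j ∘ m))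
          (Sum.elim (fun _ : Fin 1 => c) m)) := by
  classical
  -- elements of `Z`
  have zne : ∀ z ∈ Z, z ≠ e := fun z hz h => D.he (h ▸ hz)
  have zna : ∀ z ∈ Z, z ≠ a := fun z hz h => D.ha (h ▸ hz)
  have znc : ∀ z ∈ Z, z ≠ c := fun z hz h => D.hc (h ▸ hz)
  have znb : ∀ z ∈ Z₀, z ≠ b := fun z hz h => D.hb₀ (h ▸ hz)
  have hfz : ∀ z ∈ Z, z ≠ b → ∀ i, F'.f i z = F.f i z := fun z hz hb i => S.fo z hb (zne z hz) i
  let Zt : Type := {z // z ∈ Z}
  let par : Fn → Zt → Zt := fun i z => ⟨F'.f i z, D.cl z z.2 i⟩
  let X : Type := Fin n × Option {z // z ∈ Z \ Z₀}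
  let κ : X → Kind := fun u => match u.2 with
    | none => .A
    | some z => F.kind z
  let τ : X → Fn → Option (X ⊕ N) := fun u i => match u.2 with
    | none => if i = .p then some (Sum.inr e) else none
    | some z => if (z : N) = b then (if i = .p then some (Sum.inr e) else none)
        else if F'.f i z = z then none
        else if h : F'.f i z ∈ Z \ Z₀ then some (Sum.inl (u.1, some ⟨F'.f i z, h⟩))
        else some (Sum.inr (F'.f i z))
  let ρ : X → ℕ := fun u => match u.2 with
    | none => 0
    | some z => (Z.filter (fun y => F.lt y z)).card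
  let Q : X → X → Prop := fun u v => match u.2, v.2 with
    | none, none => False
    | none, some z => if (z : N) = b then u.1 < v.1 else F.R a z
    | some z, none => if (z : N) = b then v.1 < u.1 else F.R a z
    | some z, some z' => u.1 = v.1 ∧ F.R z z'
  let U : X → N → Prop := fun u s => match u.2 with
    | none => F.R a s
    | some z => F.R z s
  have : Finite X := inferInstance
  have hXZ : ∀ z : {z // z ∈ Z \ Z₀}, (z : N) ∈ Z := fun z => (Finset.mem_sdiff.1 z.2).1
  have hXZ₀ : ∀ z : {z // z ∈ Z \ Z₀}, (z : N) ∉ Z₀ := fun z => (Finset.mem_sdiff.1 z.2).2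
  obtain ⟨E, hinj, hnS, hkE, hnone, hinl, hinr, hQ, hU⟩ := hExt N F S.hG X ρ κ τ (insert e Z₀) Q U
    (by
      rintro ⟨i, _ | z⟩ k ⟨j, y⟩ h
      · simp only [τ] at h
        split_ifs at h
        cases h
      · simp only [τ] at h
        split_ifs at h with h1 h2 h3 h6
        · cases h
        · simp only [Option.some.injEq, Sum.inl.injEq] at h
          obtain ⟨rfl, rfl⟩ := h
          have h4 : F'.f k z = F.f k z := hfz z (hXZ z) h1 k
          have h5 : F.f k z ≠ z := fun h => h3 (h4.trans h)
          constructor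
          · show (Z.filter (fun y => F.lt y (F'.f k z))).card < (Z.filter (fun y => F.lt y z)).card
            apply Finset.card_lt_card
            rw [h4]
            refine ⟨?_, ?_⟩
            · intro y hy
              rw [Finset.mem_filter] at hy ⊢
              exact ⟨hy.1, F.lt_trans _ _ _ hy.2 (F.f_lt k z h5)⟩
            · intro hsub
              have h6 : F.f k z ∈ Z.filter (fun y => F.lt y z) :=
                Finset.mem_filter.2 ⟨h4 ▸ D.cl z (hXZ z) k, F.f_lt k z h5⟩
              exact F.lt_irrefl _ (Finset.mem_filter.1 (hsub h6)).2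
          · show ok (F.kind z) k (F.kind (F'.f k z))
            rw [h4]
            exact F.f_ok k z h5
        · cases h)
    (by
      rintro ⟨i, _ | z⟩ k s h
      · simp only [τ] at h
        split_ifs at h with h1
        simp only [Option.some.injEq, Sum.inr.injEq] at h
        subst h
        subst h1
        refine ⟨Finset.mem_insert_self _ _, ?_⟩
        show ok .A .p (F.kind e)
        rw [S.ke]
        trivial
      · simp only [τ] at h
        split_ifs at h with h1 h2 h3 h6
        · simp only [Option.some.injEq, Sum.inr.injEq] at h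
          subst h
          subst h2
          refine ⟨Finset.mem_insert_self _ _, ?_⟩
          show ok (F.kind z) .p (F.kind e)
          rw [S.ke, h1, S.kb]
          trivial
        · cases h
        · simp only [Option.some.injEq, Sum.inr.injEq] at h
          subst h
          have h4 : F'.f k z = F.f k z := hfz z (hXZ z) h1 k
          have h5 : F.f k z ≠ z := fun h => h3 (h4.trans h)
          refine ⟨Finset.mem_insert_of_mem ?_, ?_⟩
          · by_contra h7
            exact h6 (Finset.mem_sdiff.2 ⟨D.cl z (hXZ z) k, h7⟩)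
          · show ok (F.kind z) k (F.kind (F'.f k z))
            rw [h4]
            exact F.f_ok k z h5)
    (by
      rintro ⟨i, _ | z⟩ ⟨j, _ | z'⟩ h
      · exact h
      · exact h
      · exact h
      · exact ⟨h.1.symm, F.R_symm _ _ h.2⟩)
    (by
      rintro ⟨i, _ | z⟩ h
      · exact h
      · exact F.R_irrefl _ h.2)
  have hnS' : ∀ u, E u ≠ e := fun u h => hnS u (h ▸ Finset.mem_insert_self _ _)
  have hnZ : ∀ u, E u ∉ Z₀ := fun u h => hnS u (Finset.mem_insert_of_mem h)
  have symR : ∀ x y, F.R x y ↔ F.R y x := fun x y => ⟨F.R_symm x y, F.R_symm y x⟩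
  let g : Fin n → N → N := fun j z => if h : z ∈ Z \ Z₀ then E (j, some ⟨z, h⟩) else z
  have gout : ∀ (j : Fin n) (z : N), z ∈ Z₀ → g j z = z := by
    intro j z hz
    simp only [g]
    rw [dif_neg]
    intro h
    exact (Finset.mem_sdiff.1 h).2 hz
  have gin : ∀ (j : Fin n) (z : N) (h : z ∈ Z \ Z₀), g j z = E (j, some ⟨z, h⟩) := by
    intro j z h
    simp only [g, dif_pos h]
  have hcase : ∀ z ∈ Z, z ∈ Z₀ ∨ z ∈ Z \ Z₀ := by
    intro z hz
    by_cases h : z ∈ Z₀
    · exact Or.inl h
    · exact Or.inr (Finset.mem_sdiff.2 ⟨hz, h⟩)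
  have hbX : b ∈ Z \ Z₀ := Finset.mem_sdiff.2 ⟨D.hb, D.hb₀⟩
  -- the values of the parent functions
  have f1 : ∀ i, F.f .p (E (i, none)) = e := fun i => hinr (i, none) .p e (by simp [τ])
  have f2 : ∀ i k, k ≠ .p → F.f k (E (i, none)) = E (i, none) :=
    fun i k hk => hnone (i, none) k (by simp [τ, hk])
  have f3 : ∀ (j : Fin n), F.f .p (g j b) = e := by
    intro j
    rw [gin j b hbX]
    exact hinr (j, some ⟨b, hbX⟩) .p e (by simp [τ])
  have f4 : ∀ (j : Fin n) (k : Fn), k ≠ .p → F.f k (g j b) = g j b := by
    intro j k hk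
    rw [gin j b hbX]
    exact hnone (j, some ⟨b, hbX⟩) k (by simp [τ, hk])
  have f5 : ∀ (j : Fin n) (z : N) (k : Fn), z ∈ Z → z ≠ b →
      F.f k (g j z) = g j (F'.f k z) := by
    intro j z k hz hzb
    rcases hcase z hz with h | h
    · rw [gout j z h, gout j _ (D.cl₀ z h k), hfz z hz hzb k]
    · rw [gin j z h]
      by_cases h1 : F'.f k z = z
      · rw [h1, gin j z h]
        exact hnone (j, some ⟨z, h⟩) k (by simp [τ, hzb, h1])
      · rcases hcase _ (D.cl z hz k) with h2 | h2
        · rw [gout j _ h2]
          refine hinr (j, some ⟨z, h⟩) k _ ?_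
          have h3 : ¬ F'.f k z ∈ Z \ Z₀ := fun h => (Finset.mem_sdiff.1 h).2 h2
          simp only [τ]
          rw [if_neg hzb, if_neg h1, dif_neg h3]
        · rw [gin j _ h2]
          refine hinl (j, some ⟨z, h⟩) k (j, some ⟨_, h2⟩) ?_
          simp only [τ]
          rw [if_neg hzb, if_neg h1, dif_pos h2]
  have RQ0 : ∀ (i j : Fin n) (z : N), z ∈ Z → (F.R (E (i, none)) (g j z) ↔
      if z = b then i < j else F.R a z) := by
    intro i j z hz
    rcases hcase z hz with h | h
    · rw [gout j z h, if_neg (znb z h)]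
      exact hU (i, none) z (Finset.mem_insert_of_mem h)
    · rw [gin j z h]
      exact hQ (i, none) (j, some ⟨z, h⟩)
  have RQ1 : ∀ (j : Fin n) (z z' : N), z ∈ Z → z' ∈ Z → (F.R (g j z) (g j z') ↔ F.R z z') := by
    intro j z z' hz hz'
    rcases hcase z hz with h | h
    · rcases hcase z' hz' with h' | h'
      · rw [gout j z h, gout j z' h']
      · rw [gout j z h, gin j z' h', symR, symR z]
        exact hU (j, some ⟨z', h'⟩) z (Finset.mem_insert_of_mem h)
    · rcases hcase z' hz' with h' | h'
      · rw [gin j z h, gout j z' h']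
        exact hU (j, some ⟨z, h⟩) z' (Finset.mem_insert_of_mem h')
      · rw [gin j z h, gin j z' h', hQ (j, some ⟨z, h⟩) (j, some ⟨z', h'⟩)]
        exact ⟨fun h => h.2, fun h => ⟨rfl, h⟩⟩
  have Re0 : ∀ i, F.R (E (i, none)) e ↔ F.R a e :=
    fun i => hU (i, none) e (Finset.mem_insert_self _ _)
  have Re1 : ∀ (j : Fin n) (z : N), z ∈ Z → (F.R (g j z) e ↔ F.R z e) := by
    intro j z hz
    rcases hcase z hz with h | h
    · rw [gout j z h]
    · rw [gin j z h]
      exact hU (j, some ⟨z, h⟩) e (Finset.mem_insert_self _ _)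
  have inj1 : ∀ (j : Fin n) (z z' : N), z ∈ Z → z' ∈ Z → (g j z = g j z' ↔ z = z') := by
    intro j z z' hz hz'
    constructor
    · intro heq
      rcases hcase z hz with h | h
      · rcases hcase z' hz' with h' | h'
        · rwa [gout j z h, gout j z' h'] at heq
        · rw [gout j z h, gin j z' h'] at heq
          exact absurd (heq ▸ h) (hnZ _)
      · rcases hcase z' hz' with h' | h'
        · rw [gin j z h, gout j z' h'] at heq
          exact absurd (heq ▸ h') (hnZ _)
        · rw [gin j z h, gin j z' h'] at heq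
          exact congrArg Subtype.val (Option.some.inj (congrArg Prod.snd (hinj heq)))
    · rintro rfl; rfl
  have inj2 : ∀ (i j : Fin n) (z : N), z ∈ Z → E (i, none) ≠ g j z := by
    intro i j z hz heq
    rcases hcase z hz with h | h
    · rw [gout j z h] at heq
      exact hnZ _ (heq ▸ h)
    · rw [gin j z h] at heq
      have := congrArg Prod.snd (hinj heq)
      cases this
  have inj3 : ∀ (j : Fin n) (z : N), z ∈ Z → g j z ≠ e := by
    intro j z hz heq
    rcases hcase z hz with h | h
    · rw [gout j z h] at heq
      exact zne z hz heq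
    · rw [gin j z h] at heq
      exact hnS' _ heq
  have kg : ∀ (j : Fin n) (z : N), z ∈ Z → F.kind (g j z) = F.kind z := by
    intro j z hz
    rcases hcase z hz with h | h
    · rw [gout j z h]
    · rw [gin j z h]
      exact hkE (j, some ⟨z, h⟩)
  refine ⟨fun i => E (i, none), g, gout, fun i j => ⟨?_, ?_⟩⟩
  · -- the pattern of `(a, m)`
    intro hij d r m hm
    have ane : a ≠ e := by
      intro h
      have := S.ka
      rw [h, S.ke] at this
      cases this
    refine approx_fam (Y := Option (Option Zt))
      (fun k y => match y with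
        | none => none
        | some none => if k = .p then none else some none
        | some (some z) => if (z : N) = b then (if k = .p then none else some (some z))
            else some (some (par k z)))
      (fun y => match y with
        | none => e
        | some none => E (i, none)
        | some (some z) => g j (z : N))
      (fun y => match y with
        | none => e
        | some none => a
        | some (some z) => (z : N)) ?_ ?_ ?_ ?_ ?_
      (Sum.elim (fun _ => some none) (fun s => some (some ⟨m s, hm s⟩))) ?_ ?_ d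
    · rintro k (_ | _ | z)
      · exact S.fe k
      · by_cases hk : k = .p
        · subst hk; simpa using f1 i
        · simpa [hk] using f2 i k hk
      · by_cases hz : (z : N) = b
        · by_cases hk : k = .p
          · subst hk; simpa [hz] using f3 j
          · simpa [hz, hk] using f4 j k hk
        · simpa [hz] using f5 j z k z.2 hz
    · rintro k (_ | _ | z)
      · exact S.fe k
      · by_cases hk : k = .p
        · subst hk; simpa using S.pa
        · simpa [hk] using f_point (F := F) (x := a) (by rw [S.ka]; intro h; cases h) hk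
      · by_cases hz : (z : N) = b
        · by_cases hk : k = .p
          · subst hk; simpa [hz] using S.pb
          · simpa [hz, hk] using f_point (F := F) (x := b) (by rw [S.kb]; intro h; cases h) hk
        · simpa [hz, par] using (hfz z z.2 hz k).symm
    · rintro (_ | _ | z) (_ | _ | z')
      · simp
      · simp [(hnS' _).symm, ane.symm]
      · simp [(inj3 j z' z'.2).symm, (zne z' z'.2).symm]
      · simp [hnS', ane]
      · simp
      · simp [inj2 i j z' z'.2, (zna z' z'.2).symm]
      · simp [inj3 j z z.2, zne z z.2]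
      · simp [(inj2 i j z z.2).symm, zna z z.2]
      · exact inj1 j z z' z.2 z'.2
    · rintro (_ | _ | z)
      · rfl
      · exact (hkE (i, none)).trans S.ka.symm
      · exact kg j z z.2
    · have irr : ∀ x, F.R x x ↔ False := fun x => ⟨fun h => F.R_irrefl x h, False.elim⟩
      have ez : ∀ z : Zt, F.R (E (i, none)) (g j z) ↔ F.R a z := by
        intro z
        rw [RQ0 i j z z.2]
        by_cases hz : (z : N) = b
        · simp [hz, hij, S.Rab]
        · simp [hz]
      rintro (_ | _ | z) (_ | _ | z')
      · exact Iff.rfl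
      · show F.R e (E (i, none)) ↔ F.R e a
        rw [symR e, symR e a]
        exact Re0 i
      · show F.R e (g j z') ↔ F.R e z'
        rw [symR e, symR e z']
        exact Re1 j z' z'.2
      · exact Re0 i
      · show F.R (E (i, none)) (E (i, none)) ↔ F.R a a
        rw [irr, irr]
      · exact ez z'
      · exact Re1 j z z.2
      · show F.R (g j z) (E (i, none)) ↔ F.R z a
        rw [symR (g j z), symR z a]
        exact ez z
      · exact RQ1 j z z' z.2 z'.2
    · rintro (s | s) <;> rfl
    · rintro (s | s) <;> rfl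
  · -- the pattern of `(c, m)`
    intro hji
    obtain ⟨F'', hG'', hC'', hk'', hR'', hf1, hf2, hf3⟩ := hR2 N F S.hG S.hC (E (i, none))
      (g j b) e (hkE (i, none)) ((kg j b D.hb).trans S.kb) S.ke S.fe
      (f1 i) (f3 j) (by
        rw [RQ0 i j b D.hb, if_pos rfl]
        exact not_lt.2 hji)
    refine ⟨F'', hG'', hC'', ?_⟩
    intro d r m hm
    refine approx_fam (Y := Option Zt)
      (fun k y => match y with
        | none => none
        | some z => some (par k z))
      (fun y => match y with
        | none => E (i, none)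
        | some z => g j (z : N))
      (fun y => match y with
        | none => c
        | some z => (z : N)) ?_ ?_ ?_ ?_ ?_
      (Sum.elim (fun _ => none) (fun s => some ⟨m s, hm s⟩)) ?_ ?_ d
    · rintro k (_ | z)
      · exact hf1 k
      · show F''.f k (g j z) = g j (F'.f k z)
        by_cases hz : (z : N) = b
        · rw [hz, S.fb]
          exact hf2 k
        · rw [hf3 (g j z) ((inj2 i j z z.2).symm) (by
            intro h
            exact hz ((inj1 j _ _ z.2 D.hb).1 h)) (inj3 j z z.2) k]
          exact f5 j z k z.2 hz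
    · rintro k (_ | z)
      · exact D.fc k
      · rfl
    · rintro (_ | z) (_ | z')
      · simp
      · simp [inj2 i j z' z'.2, (znc z' z'.2).symm]
      · simp [(inj2 i j z z.2).symm, znc z z.2]
      · exact inj1 j z z' z.2 z'.2
    · rintro (_ | z)
      · show F''.kind (E (i, none)) = F'.kind c
        rw [hk'', S.kd', D.kc]
        exact hkE (i, none)
      · show F''.kind (g j z) = F'.kind z
        rw [hk'', S.kd']
        exact kg j z z.2
    · have ez : ∀ z : Zt, F.R (E (i, none)) (g j z) ↔ F.R c z := by
        intro z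
        rw [RQ0 i j z z.2, D.Rc z z.2]
        by_cases hz : (z : N) = b
        · simp [hz, not_lt.2 hji]
        · simp [hz]
      rintro (_ | z) (_ | z')
      · show F''.R (E (i, none)) (E (i, none)) ↔ F'.R c c
        exact ⟨fun h => absurd h (F''.R_irrefl _), fun h => absurd h (F'.R_irrefl _)⟩
      · show F''.R (E (i, none)) (g j z') ↔ F'.R c z'
        rw [hR'', S.R']
        exact ez z'
      · show F''.R (g j z) (E (i, none)) ↔ F'.R z c
        rw [hR'', S.R', symR (g j z), symR z c]
        exact ez z
      · show F''.R (g j z) (g j z') ↔ F'.R z z'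
        rw [hR'', S.R']
        exact RQ1 j z z' z.2 z'.2
    · rintro (s | s) <;> rfl
    · rintro (s | s) <;> rfl

end Pool.Agent.SFC.H87
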