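import Pool.Agent.Lib.MP_aa7e4d_lc.H87.ModelB

/-!
# The version over models, part C: from finite order patterns to the order property
-/

open FirstOrder FirstOrder.Language Filter

namespace Pool.Agent.SFC.H87

/-- finite order patterns of every length in `N` give the order property in an ultrapower -/
theorem not_stable_of_finite {L : FirstOrder.Language.{0, 0}} {N : Type} [L.Structure N]
    [Nonempty N] {α β : Type} (φ : L.Formula (α ⊕ β))
    (h : ∀ n : ℕ, ∃ (x : Fin n → α → N) (y : Fin n → β → N), ∀ i j : Fin n,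
      φ.Realize (Sum.elim (x i) (y j)) ↔ i < j) : ¬ StableFormula (L.completeTheory N) φ := by
  classical
  intro hs
  choose x y hxy using h
  let u : Ultrafilter ℕ := hyperfilter ℕ
  have p0 : N := Classical.arbitrary N
  let a' : ℕ → α → ∀ _ : ℕ, N := fun i s n => if h : i < n then x n ⟨i, h⟩ s else p0
  let b' : ℕ → β → ∀ _ : ℕ, N := fun j s n => if h : j < n then y n ⟨j, h⟩ s else p0
  refine hs ⟨(u : Filter ℕ).Product (fun _ : ℕ => N), inferInstance, ?_, inferInstance,
    fun i s => (a' i s : (u : Filter ℕ).Product (fun _ : ℕ => N)),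
    fun j s => (b' j s : (u : Filter ℕ).Product (fun _ : ℕ => N)), ?_⟩
  · refine ⟨fun σ hσ => ?_⟩
    rw [Ultraproduct.sentence_realize]
    exact Filter.Eventually.of_forall (fun _ => hσ)
  · intro i j
    have h1 := Ultraproduct.realize_formula_cast (u := u) (M := fun _ : ℕ => N) φ
      (Sum.elim (a' i) (b' j))
    have h2 : (fun s => ((Sum.elim (a' i) (b' j) s : ∀ _ : ℕ, N) :
        (u : Filter ℕ).Product (fun _ : ℕ => N))) =
        Sum.elim (fun s => (a' i s : (u : Filter ℕ).Product (fun _ : ℕ => N)))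
          (fun s => (b' j s : (u : Filter ℕ).Product (fun _ : ℕ => N))) := by
      funext s
      rcases s with s | s <;> rfl
    rw [h2] at h1
    refine Iff.trans h1 ?_
    have h3 : ∀ᶠ n in (u : Filter ℕ), (φ.Realize (fun s => Sum.elim (a' i) (b' j) s n) ↔ i < j) := by
      have h4 : ∀ᶠ n in (u : Filter ℕ), max i j < n := by
        apply hyperfilter_le_cofinite
        rw [Nat.cofinite_eq_atTop]
        exact Filter.eventually_gt_atTop _
      filter_upwards [h4] with n hn
      have hi : i < n := lt_of_le_of_lt (le_max_left _ _) hn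
      have hj : j < n := lt_of_le_of_lt (le_max_right _ _) hn
      have h5 : (fun s => Sum.elim (a' i) (b' j) s n) = Sum.elim (x n ⟨i, hi⟩) (y n ⟨j, hj⟩) := by
        funext s
        rcases s with s | s
        · simp only [Sum.elim_inl, a', dif_pos hi]
        · simp only [Sum.elim_inr, b', dif_pos hj]
      rw [h5, hxy n ⟨i, hi⟩ ⟨j, hj⟩]
      exact Fin.mk_lt_mk
    constructor
    · intro h
      obtain ⟨n, h4, h5⟩ := (h.and h3).exists
      exact h5.1 h4
    · intro h
      filter_upwards [h3] with n hn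
      exact hn.2 h

variable {N : Type} [Lang.Structure N] {F F' : Frame N} {e b a : N}

/-- finite order patterns of every length, with the parameters in `Z₀` fixed -/
theorem order_pattern (hDet : DetStatement) (hExt : ExtStatement) (hR2 : Reor2Statement)
    (S : Setup F F' e b a) {Z Z₀ : Finset N} {c : N} (D : Fin1 F F' e b a Z Z₀ c) {r : ℕ}
    (φ : Lang.Formula (Fin 1 ⊕ Fin r)) (m : Fin r → N) (hm : ∀ s, m s ∈ Z)
    (hφ : φ.Realize (Sum.elim (fun _ => a) m)) (hc : ¬ φ.Realize (Sum.elim (fun _ => c) m))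
    (n : ℕ) : ∃ (x : Fin n → N) (y : Fin n → Fin r → N), (∀ j s, m s ∈ Z₀ → y j s = m s) ∧
      ∀ i j : Fin n, φ.Realize (Sum.elim (fun _ => x i) (y j)) ↔ i < j := by
  obtain ⟨d, hd⟩ := hDet _ φ
  obtain ⟨x, g, hfix, hxg⟩ := blocks hExt hR2 S D n
  refine ⟨x, fun j => g j ∘ m, fun j s hs => hfix j _ hs, fun i j => ?_⟩
  obtain ⟨h1, h2⟩ := hxg i j
  constructor
  · intro h
    by_contra hij
    obtain ⟨F'', hG'', hC'', h3⟩ := h2 (not_lt.1 hij)
    exact hc ((hd N N F'' F' hG'' S.hG' hC'' S.hC' _ _ (h3 d r m hm)).1 h)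
  · intro hij
    exact (hd N N F F S.hG S.hG S.hC S.hC _ _ (h1 hij d r m hm)).2 hφ

end Pool.Agent.SFC.H87
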